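import Pool.Agent.Lib.MP_bcfefa_nt.GMain

set_option autoImplicit false

open Pool.Agent.Lib.MP_bcfefa_nt NumberField

namespace Pool.Agent.Results.MP_bcfefa_nt.CMRankOneAll

theorem result (K : Type) [Field K] [NumberField K] (h2 : Module.finrank ℚ K = 2) (σ : K →+* ℂ)
    (hσ : ∃ x : K, (σ x).im ≠ 0) (f : Ideal (𝓞 K)) (hf : f ≠ ⊥) (χ : ChI f) (hprim : IsPrimI f χ)
    (hneb : TrivNebI f χ) (k d : ℕ) (hk : 2 ≤ k) (he : Even k) (hd : 0 < d) (ψ μ : IdCh (𝓞 K))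
    (hψ : IsHecke (fun a : 𝓞 K => σ a) χ ψ (k - 1)) (hμ : IsUnram (fun a : 𝓞 K => σ a) μ d)
    (hW : HasSign (coefI ψ) (levelI f) k (-1)) :
    ∃ c : ℝ, 0 < c ∧ ∃ X₀ : ℝ, ∀ X : ℝ, X₀ ≤ X →
      c * X ≤ ({n : ℕ | (n : ℝ) ≤ X ∧ HasOrd (coefI (twistI ψ μ n)) (k + d * n) 1}.ncard : ℝ) := by
  obtain ⟨R, rfl⟩ := exists_rk h2 σ hσ
  have hμ' : R.IsU μ d := fun a => hμ a
  obtain ⟨j, hj⟩ := he
  obtain ⟨d', hd'⟩ := hμ'.even
  obtain rfl : k = 2 * j := by omega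
  obtain rfl : d = 2 * d' := by omega
  have hodd : evI χ (-1) = -1 := by
    have h : ψ (Ideal.span {-1}) = evI χ (-1) * R.ι (-1) ^ (2 * j - 1) := hψ (-1)
    have h3 : Odd (2 * j - 1) := ⟨j - 1, by omega⟩
    have h5 : ψ (Ideal.span {-1}) = 1 := by
      rw [Ideal.span_singleton_neg, Ideal.span_singleton_one, ← Ideal.one_eq_top, map_one]
    rw [h5, map_neg, map_one, h3.neg_one_pow] at h
    linear_combination h
  let H : Gk K := ⟨R, f, hf, χ, hprim, hneb, hodd⟩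
  have hψ' : H.IsH ψ (2 * j - 1) := fun a => hψ a
  exact Gk.main (H := H) (by omega) (by omega) hψ' hμ' hW

end Pool.Agent.Results.MP_bcfefa_nt.CMRankOneAll
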