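import Pool.Agent.Lib.MP_bcfefa_nt.P.Main

set_option autoImplicit false

open Pool.Agent.Lib.MP_bcfefa_nt.P

namespace Pool.Agent.Results.MP_bcfefa_nt.GreenbergLevelOne

theorem result (p : ℕ) [Fact p.Prime] (ι : ℂ →+* ℂ_[p]) (h : ℝ) (r : ℕ) :
    (∀ x ∈ Exc (p ^ r),
      (1 ≤ r ∧ coef x.2 p ^ 2 = (p : ℂ) ^ (x.1 - 2)) ∨ (2 ≤ r ∧ coef x.2 p = 0)) ∧
      {x | x ∈ Exc (p ^ r) ∧ (p : ℝ) ^ (-h) ≤ ‖ι (coef x.2 p)‖}.Finite := by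
  refine ⟨exc_new Fact.out rfl, (finite_pairs (p ^ r) (2 * h + 2)).subset ?_⟩
  rintro x ⟨hx, hs⟩
  rcases exc_new Fact.out rfl x hx with ⟨-, h1⟩ | ⟨-, h1⟩
  · obtain ⟨hk, -, he, -⟩ := hx
    exact ⟨hk, slope_bound ι h1 hs, he⟩
  · rw [h1, map_zero, norm_zero] at hs
    have hp : (0 : ℝ) < p := by exact_mod_cast (Fact.out : p.Prime).pos
    exact absurd hs (not_le.mpr (Real.rpow_pos_of_pos hp _))

end Pool.Agent.Results.MP_bcfefa_nt.GreenbergLevelOne
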